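import Pool.Agent.helper38.OP.Spec

set_option autoImplicit false

namespace Pool.Agent.OP

open Finset Real Pool.Agent.AT Pool.Agent.helper85.FC Pool.Agent.OM

theorem SHAb_nat (M T s : ℕ) (v : ℤ) (f : ℤ → ℝ) (hT : 1 ≤ T) (hf : ∀ x, 0 ≤ f x ∧ f x ≤ 1) :
    |sm M T f (v + M * (s : ℤ)) - sm M T f v| ≤ (s : ℝ) / T := by
  obtain ⟨g, hg⟩ : ∃ g : ℕ → ℝ, ∀ τ, g τ = f (v + M * (τ : ℤ)) := ⟨_, fun _ => rfl⟩
  have hT0 : (0 : ℝ) < T := by exact_mod_cast hT
  have e1 : sm M T f v = (∑ τ ∈ range T, g τ) / T := by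
    unfold sm
    exact congrArg (fun x => x / (T : ℝ)) (sum_congr rfl fun τ _ => (hg τ).symm)
  have e2 : sm M T f (v + M * (s : ℤ)) = (∑ τ ∈ range T, g (s + τ)) / T := by
    unfold sm
    refine congrArg (fun x => x / (T : ℝ)) (sum_congr rfl fun τ _ => ?_)
    rw [hg]
    congr 1
    push_cast
    ring
  have e3 : ∑ τ ∈ range s, g τ + ∑ τ ∈ range T, g (s + τ) = ∑ τ ∈ range T, g τ + ∑ τ ∈ range s, g (T + τ) := by
    rw [← sum_range_add, ← sum_range_add, Nat.add_comm]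
  have e4 : ∑ τ ∈ range T, g (s + τ) - ∑ τ ∈ range T, g τ = ∑ τ ∈ range s, (g (T + τ) - g τ) := by
    rw [sum_sub_distrib]
    linarith
  rw [e1, e2, ← sub_div, e4, abs_div, abs_of_pos hT0]
  refine div_le_div_of_nonneg_right ?_ hT0.le
  refine le_trans (abs_sum_le_sum_abs _ _) ?_
  refine le_trans (sum_le_sum fun τ _ => (?_ : |g (T + τ) - g τ| ≤ 1)) ?_
  · rw [hg, hg]
    have h1 := hf (v + M * ((T + τ : ℕ) : ℤ))
    have h2 := hf (v + M * (τ : ℤ))
    rw [abs_le]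
    constructor <;> linarith [h1.1, h1.2, h2.1, h2.2]
  · simp

theorem SHAb : SHA_stmt := by
  intro M T s v f hT hf
  rcases Int.natAbs_eq s with h | h
  · have h1 := SHAb_nat M T s.natAbs v f hT hf
    rw [← h] at h1
    have h2 : |(s : ℝ)| = ((s.natAbs : ℕ) : ℝ) := by
      rw [Nat.cast_natAbs, Int.cast_abs]
    rw [h2]
    exact h1
  · have h1 := SHAb_nat M T s.natAbs (v + M * s) f hT hf
    have h3 : v + M * s + M * ((s.natAbs : ℕ) : ℤ) = v := by
      have : ((s.natAbs : ℕ) : ℤ) = -s := by omega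
      rw [this]
      ring
    rw [h3, abs_sub_comm] at h1
    have h2 : |(s : ℝ)| = ((s.natAbs : ℕ) : ℝ) := by
      rw [Nat.cast_natAbs, Int.cast_abs]
    rw [h2]
    exact h1

end Pool.Agent.OP
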