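import Pool.Agent.helper10.OM.Spec

/-!
# Project OP (MP_bf63dc_nt, rows `op:*`): density one in a residue class (natural upper density)

GOAL (`OMEGAP`). For every `ε > 0` there is `L`, depending only on `ε`, such that for all coprime `a ≠ b`, both signs `σ` and all large
`r`: there are `q, C` such that for EVERY large `X` some `1 ≤ m < L`, some class `s` mod `q` and some `X' ∈ [X, C X]` have: at least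
`(1 - ε) X'/q` integers `0 < c ≤ X'`, `c ≡ s (mod q)`, are true: `b^(rm) p - a^(rm) p' = σ c` for infinitely many pairs of primes.
COROLLARIES: `CORP`: for every large `r` some `rm`, `m < L`, has a class in which the true `c` have UPPER DENSITY at least `1 - ε`;
`DENP`: such exponents have positive lower density. Page: /team-store/OMEGA_plus_helper38.md.

IDEA. As in project OM, but the averages `P_m` of `B_m` are over the long progressions `v + M t`, `t < T_m ≈ a^m Y/(κ M)`. If `a/b` is small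
(in terms of `L`, `κ`) then `B - P` is still small in cut norm (CU2). Now `P_m (b^m x - a^m y)` depends on `y` only modulo `M` up to
`2κ` (LOW), and if in all classes mod `M` at least `ε` of the `v ∈ [0, b^m Y)` are false then the average of `P_m` over every class of `x` is
at least `ε - 6κ` (AVG). Then there are many 4-cliques (TYP, K4L: only Cauchy-Schwarz), against `QPc`.

RULES. Row `XX`: file `Pool/Agent/<seat>/OP/XX.lean`, `import Pool.Agent.helper38.OP.Spec`, `namespace Pool.Agent.OP`, `open Finset Real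
Pool.Agent.AT Pool.Agent.helper85.FC Pool.Agent.OM`, `theorem XX (hYY : YY_stmt) ... : XX_stmt` (drop hypotheses you do not need), auxiliary
lemmas prefixed `XX_`, other rows only as hypotheses (also the rows of OM: `(hGEO : OM.GEO_stmt)`). No `convert`, no `congr!`, no
`native_decide`, no straight double quotes; `open Classical in` only before definitions.
-/

set_option autoImplicit false

namespace Pool.Agent.OP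

open Finset Real Pool.Agent.AT Pool.Agent.helper85.FC Pool.Agent.OM

/-! ## Definitions -/

open Classical in
/-- `1` if `b^m - a^m + 6abσv` is not true for `b^m, a^m`, otherwise `0` (`σ = 1` or `σ = -1`) -/
noncomputable def BS (σ : ℤ) (a b : ℕ) (m : ℕ) (v : ℤ) : ℝ :=
  if TrueCase (b ^ m) (a ^ m) ((b : ℤ) ^ m - (a : ℤ) ^ m + 6 * a * b * (σ * v)) then 0 else 1

/-- the averages of the `B_m` over progressions of `T_m` terms -/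
noncomputable def PQ (M : ℕ) (T : ℕ → ℕ) (B : ℕ → ℤ → ℝ) (m : ℕ) (v : ℤ) : ℝ := sm M (T m) (B m) v

/-- a lower bound for `P` on the pair `p = (i, x)`, `p' = (j, y)`, `j < i`, which depends on `p'` only by `j` and `y % M` -/
noncomputable def ff (a b M : ℕ) (κ : ℝ) (T : ℕ → ℕ) (B : ℕ → ℤ → ℝ) (p p' : ℕ × ℕ) : ℝ :=
  max 0 (PQ M T B (p.1 - p'.1) ((b : ℤ) ^ (p.1 - p'.1) * p.2 - (a : ℤ) ^ (p.1 - p'.1) * (p'.2 % M : ℕ)) - 2 * κ)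

open Classical in
/-- the number of `c` with `0 < c ≤ X`, `c ≡ s (mod q)` and `σ c` true for the coefficients `b^m`, `a^m` -/
noncomputable def NC (σ : ℤ) (a b m q s X : ℕ) : ℕ := #{c ∈ Icc 1 X | c % q = s ∧ TrueCase (b ^ m) (a ^ m) (σ * c)}

/-- THEOREM: density one in a residue class, for every `X` -/
def OMEGAP : Prop := ∀ ε : ℝ, 0 < ε → ∃ L : ℕ, ∀ a b : ℕ, 1 ≤ a → 1 ≤ b → Nat.Coprime a b → a ≠ b → ∀ σ : ℤ, σ = 1 ∨ σ = -1 →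
  ∃ r₀ : ℕ, ∀ r : ℕ, r₀ ≤ r → ∃ q C X₀ : ℕ, 1 ≤ q ∧ ∀ X : ℕ, X₀ ≤ X → ∃ m ∈ Ico 1 L, ∃ s < q, ∃ X' : ℕ, X ≤ X' ∧ X' ≤ C * X ∧
    (1 - ε) * X' ≤ q * NC σ a b (r * m) q s X'

/-- in some residue class the true `σ c`, `c > 0`, for the coefficients `b^m`, `a^m` have upper density at least `1 - ε` -/
def GoodU (ε : ℝ) (σ : ℤ) (a b m : ℕ) : Prop := ∃ q s : ℕ, 1 ≤ q ∧ s < q ∧ ∀ X₀ : ℕ, ∃ X : ℕ, X₀ ≤ X ∧ (1 - ε) * X ≤ q * NC σ a b m q s X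

/-- COROLLARY: for all large `r` one of `r, 2r, ..., (L-1) r` is good, `L` depends only on `ε` -/
def CORP : Prop := ∀ ε : ℝ, 0 < ε → ∃ L : ℕ, ∀ a b : ℕ, 1 ≤ a → 1 ≤ b → Nat.Coprime a b → a ≠ b → ∀ σ : ℤ, σ = 1 ∨ σ = -1 →
  ∃ r₀ : ℕ, ∀ r : ℕ, r₀ ≤ r → ∃ m ∈ Ico 1 L, GoodU ε σ a b (r * m)

open Classical in
/-- COROLLARY: the good exponents have positive lower density, at least `δ(ε)` -/
def DENP : Prop := ∀ ε : ℝ, 0 < ε → ∃ δ : ℝ, 0 < δ ∧ ∀ a b : ℕ, 1 ≤ a → 1 ≤ b → Nat.Coprime a b → a ≠ b → ∀ σ : ℤ, σ = 1 ∨ σ = -1 →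
  ∃ N₀ : ℕ, ∀ N : ℕ, N₀ ≤ N → δ * N ≤ #{m ∈ Icc 1 N | GoodU ε σ a b m}

/-! ## Part A: the cut norm -/

/-- **AR2** (short-medium; no other rows; as `OM.ARC`).  `|a^m₁ α + b^m₁ β - n₁| ≤ ρ b^m₁`, `|a^m₂ α + b^m₂ β - n₂| ≤ ρ b^m₂`, `k = m₂ - m₁`. The
second minus `b^k` times the first: `|N α - n| ≤ 2 ρ b^m₂` with `N = a^m₁ (b^k - a^k)` (up to the sign). `MM1 = N N'` with a natural number
`N'`, so `|MM1 α - N' n| ≤ 2 N' ρ b^m₂`; and `2 N ≥ a^m₁ b^k` (`2 a ≤ b`), so `N' a^m₁ b^k ≤ 2 MM1`, `b^m₂ = b^m₁ b^k`. -/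
def AR2_stmt : Prop := ∀ a b L : ℕ, 1 ≤ a → 2 * a ≤ b → ∀ (α β ρ : ℝ) (m₁ m₂ : ℕ), 1 ≤ m₁ → m₁ < m₂ → m₂ < L → 0 ≤ ρ →
  Near ((a : ℝ) ^ m₁ * α + (b : ℝ) ^ m₁ * β) (ρ * b ^ m₁) → Near ((a : ℝ) ^ m₂ * α + (b : ℝ) ^ m₂ * β) (ρ * b ^ m₂) →
  Near (MM1 a b L * α) (4 * MM1 a b L * ρ * b ^ m₁ / a ^ m₁)

/-- **SM2** (medium; from OM.GEO, AR2).  `ρ = √L/Y`; call `m ∈ [1, L)` resonant if `Near (a^m α + b^m β) (ρ b^m)`. If `m` is not resonant then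
`FD ≤ 1/(2 D_m ρ b^m)² ≤ 1/L` (GEO; `2 D_m b^m ≥ Y`), `w m ≤ 4`: together at most `4`. The smallest resonant `m₁`: at most `4` (`FD ≤ 1`). Every
resonant `m > m₁`, `k = m - m₁ ≥ 1`: by AR2 `Near (MM1 α) (4 MM1 ρ (b/a)^m₁)`, so by the hypothesis on `w` and on `T m`
`w m ≤ (2π T_m 4 MM1 (√L/Y) (b/a)^m₁)² ≤ (16 π √L κ⁻² (a/b)^k)² ≤ ((π/4) 64^(1-k))²`, since `√L a/b ≤ κ²/64`; the sum over `k ≥ 1` is at most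
`(π²/16) (1 + 1/4095) ≤ 1`. (`MM1 ≥ 1` because `a < b`.) -/
def SM2_stmt : Prop := ∀ (a b L Y : ℕ) (κ : ℝ), 1 ≤ a → 1 ≤ L → 1 ≤ Y → 0 < κ → κ ≤ 1 → 64 * a * √L ≤ κ ^ 2 * b → ∀ D T : ℕ → ℕ,
  (∀ m ∈ Ico 1 L, 1 ≤ D m ∧ Y ≤ 2 * (b ^ m * D m)) →
  (∀ m ∈ Ico 1 L, κ ^ 2 * (MM1 a b L * (b : ℝ) ^ m * T m) ≤ 2 * ((a : ℝ) ^ m * Y)) →
  ∀ (α β : ℝ) (w : ℕ → ℝ), (∀ m ∈ Ico 1 L, 0 ≤ w m ∧ w m ≤ 4) →
  (∀ m ∈ Ico 1 L, ∀ ρ : ℝ, 0 ≤ ρ → Near (MM1 a b L * α) ρ → w m ≤ (2 * π * T m * ρ) ^ 2) →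
  ∑ m ∈ Ico 1 L, w m * FD (D m) ((a : ℝ) ^ m * α + (b : ℝ) ^ m * β) ≤ 9

/-- **CS2** (medium; from OM.SHF; the proof is that of `OM.CSQ`, with `D` and `φ` depending on `m`).  `h (x, y) = K m (b^m x - a^m y) gm (φ m) m x y` is
supported in `XX R₀ Y` in both variables, and `h (x + a^m d, y + b^m d) = K m (b^m x - a^m y) gm (φ m) m (x + a^m d) (y + b^m d)`. SHF twice: for
every `d < D m` the inner double sum of the left side is `∑_x ∑_y K m (b^m x - a^m y) gm (φ m) m (x + a^m d) (y + b^m d)`. Take the average over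
`d < D m`; Cauchy-Schwarz over the at most `L (Y + 2R)²` triples `(m, x, y)`, with `|K| ≤ 1`. -/
def CS2_stmt : Prop := ∀ (a b L R₀ R Y : ℕ) (D : ℕ → ℕ), (∀ m ∈ Ico 1 L, 1 ≤ D m ∧ R₀ + a ^ m * D m ≤ R ∧ R₀ + b ^ m * D m ≤ R) →
  ∀ K : ℕ → ℤ → ℝ, (∀ m v, |K m v| ≤ 1) → ∀ (φ : ℕ → ℕ → ℤ → ℝ) (ψ : ℕ → ℤ → ℝ), (∀ m ∈ Ico 1 L, Sp R₀ Y (φ m)) → Sp R₀ Y ψ →
  (∑ m ∈ Ico 1 L, ∑ x ∈ XX R Y, ∑ y ∈ XX R Y, K m ((b : ℤ) ^ m * x - (a : ℤ) ^ m * y) * gm L (φ m) ψ m x y) ^ 2 ≤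
    L * ((Y : ℝ) + 2 * R) ^ 2 * ∑ m ∈ Ico 1 L, ∑ x ∈ XX R Y, ∑ y ∈ XX R Y,
      ((∑ d ∈ range (D m), gm L (φ m) ψ m (x + (a : ℤ) ^ m * d) (y + (b : ℤ) ^ m * d)) / D m) ^ 2

/-- **UB2** (medium; from SM2, CS2, OM.GEO, OM.UFT, OM.SMO, OM.PHS).  `φᵘ m i x = φ i x - sm MM1 (T m) (φ i) x`, `D m = Y / b^m ≥ 1` (`b^m D_m ≤ Y ≤ 2 b^m D_m`, as
`b^m ≤ b^L ≤ Y`), `R₀ = Y` (`MM1 T_m ≤ Y`), `R = 3Y`, `Q = 7Y = Y + 2R`. For `m ∈ [1, L)`, `φᵘ m` and `ψ` satisfy `Sp R₀ Y`. CS2 and UFT (for every `m`):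
`S² ≤ L (7Y)² Q⁻² ∑_(k, l) Ph ψ (l/Q) ∑_m Ph (φᵘ m) (k/Q) FD (D m) (a^m k/Q + b^m l/Q)`. For all `α, β`:
`∑_m Ph (φᵘ m) α FD (D m) (a^m α + b^m β) ≤ 9 Ph φ α`: if `Ph φ α = 0` then all `Ph (φᵘ m) α = 0` (SMO); otherwise SM2 with
`w m = Ph (φᵘ m) α / Ph φ α` (SMO, summed over `i`, gives both hypotheses). PHS for `φ` and for `ψ`: `S² ≤ 49 L Y² 9 (L Y)² = (21 L √L Y²)²`. -/
def UB2_stmt : Prop := ∀ (a b L Y : ℕ) (κ : ℝ), 1 ≤ a → 1 ≤ L → 0 < κ → κ ≤ 1 → 64 * a * √L ≤ κ ^ 2 * b → b ^ L ≤ Y → ∀ T : ℕ → ℕ,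
  (∀ m ∈ Ico 1 L, 1 ≤ T m ∧ MM1 a b L * T m ≤ Y ∧ κ ^ 2 * (MM1 a b L * (b : ℝ) ^ m * T m) ≤ 2 * ((a : ℝ) ^ m * Y)) →
  ∀ (K φ ψ : ℕ → ℤ → ℝ), (∀ m v, |K m v| ≤ 1) → (∀ i x, |φ i x| ≤ 1) → (∀ i x, |ψ i x| ≤ 1) → Sp 0 Y φ → Sp 0 Y ψ →
  |∑ m ∈ Ico 1 L, ∑ x ∈ XX (3 * Y) Y, ∑ y ∈ XX (3 * Y) Y, K m ((b : ℤ) ^ m * x - (a : ℤ) ^ m * y) *
    gm L (fun i x => φ i x - sm (MM1 a b L) (T m) (φ i) x) ψ m x y| ≤ 21 * (L * √L) * (Y : ℝ) ^ 2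

/-- **SD2** (medium; from OM.SHF, OM.SML; the proof is that of `OM.SMD`).  `M₁ = MM1 a b L`, `M = b^L M₁`, `φˢ i = sm M₁ (T' m) (φ i)`. For fixed `m ∈ [1, L)`,
`i`, `y` and `t < T m`, with `s = b^(L-m) t ≤ κ T'_m`, `M t = b^m M₁ s`: `∑_x B m (b^m x - a^m y + M t) φˢ x = ∑_x B m (b^m x - a^m y) φˢ (x - M₁ s)` (SHF for
`h x = B m (b^m x - a^m y) φˢ (x - M₁ s)`, `A = M₁ s ≤ Y`, `R₀ = 2Y`, `R = 3Y`). So the sum over `x` of `(B m - PQ ...) φˢ` is at most the average over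
`t` of `∑_x |φˢ x - φˢ (x - M₁ s)| ≤ 2 s Y/T'_m ≤ 2 κ Y` (SML). Sum over `y ∈ [0, Y)` (`|ψ| ≤ 1`) and over the at most `L²/2` pairs `(m, i)`. -/
def SD2_stmt : Prop := ∀ (a b L Y : ℕ) (κ : ℝ), 1 ≤ a → 1 ≤ b → 1 ≤ L → 0 < κ → κ ≤ 1 → ∀ T T' : ℕ → ℕ,
  (∀ m ∈ Ico 1 L, 1 ≤ T m ∧ 1 ≤ T' m ∧ MM1 a b L * T' m ≤ Y ∧ (b : ℝ) ^ (L - m) * T m ≤ κ * T' m) →
  ∀ (B φ ψ : ℕ → ℤ → ℝ), (∀ m v, 0 ≤ B m v ∧ B m v ≤ 1) → (∀ i x, |φ i x| ≤ 1) → (∀ i x, |ψ i x| ≤ 1) → Sp 0 Y φ → Sp 0 Y ψ →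
  |∑ m ∈ Ico 1 L, ∑ x ∈ XX (3 * Y) Y, ∑ y ∈ XX (3 * Y) Y, (B m ((b : ℤ) ^ m * x - (a : ℤ) ^ m * y) -
      PQ (b ^ L * MM1 a b L) T B m ((b : ℤ) ^ m * x - (a : ℤ) ^ m * y)) *
    gm L (fun i x => sm (MM1 a b L) (T' m) (φ i) x) ψ m x y| ≤ κ * (L : ℝ) ^ 2 * (Y : ℝ) ^ 2

/-- **CU2** (medium; from UB2, SD2; the proof is that of `OM.CUT`).  `T'_m = ⌈a^m Y/(κ² MM1 b^m)⌉`: then `b^(L-m) T_m ≤ κ T'_m`,
`κ² MM1 b^m T'_m ≤ 2 a^m Y` (as `a^m Y ≥ MM1 b^m`) and `MM1 T'_m ≤ Y` (as `2 (a/b)^m ≤ κ²`, `m ≥ 1`). By the symmetry of `kr` (exchange `p` and `p'`) it is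
enough to show half the bound for the sum over the pairs with `p'.1 < p.1`. With `φ' i x = φ (i, x)` for `i < L`, `0 ≤ x < Y`, otherwise `0`, and `ψ'`
in the same way, this sum is `∑_m ∑_(x, y ∈ XX (3Y) Y) (B - PQ) gm φ' ψ'`. Write `φ' = φˢ + φᵘ` (depending on `m`): SD2 for `φˢ` (`≤ κ L² Y²`), UB2 for
`φᵘ` with `K = B - PQ` (`|K| ≤ 1`; for `m ∉ [1, L)` put `K = 0`) (`≤ 21 L √L Y² = (21/√L) L² Y²`). -/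
def CU2_stmt : Prop := ∀ (a b L : ℕ) (κ : ℝ), 1 ≤ a → 1 ≤ L → 0 < κ → κ ≤ 1 → 64 * a * √L ≤ κ ^ 2 * b → ∀ Y : ℕ,
  MM1 a b L * b ^ L ≤ Y → ∀ T : ℕ → ℕ, (∀ m ∈ Ico 1 L, 1 ≤ T m ∧ κ * ((b : ℝ) ^ L * MM1 a b L * T m) ≤ (a : ℝ) ^ m * Y) →
  ∀ B : ℕ → ℤ → ℝ, (∀ m v, 0 ≤ B m v ∧ B m v ≤ 1) → ∀ φ ψ : ℕ × ℕ → ℝ, (∀ p, |φ p| ≤ 1) → (∀ p, |ψ p| ≤ 1) →
  |∑ p ∈ VV L Y, ∑ p' ∈ VV L Y, (kr a b B p p' - kr a b (PQ (b ^ L * MM1 a b L) T B) p p') * φ p * ψ p'| ≤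
    (2 * κ + 42 / √L) * ((L : ℝ) * Y) ^ 2

/-! ## Part B: many cliques -/

/-- **SHA** (short; pure).  For `|s| ≥ T` both averages are in `[0, 1]`. For `0 ≤ s < T` the difference is `(1/T) (∑_(T ≤ τ < T+s) - ∑_(0 ≤ τ < s)) f (v + M τ)`,
both sums are in `[0, s]`; for `s < 0` exchange `v` and `v + M s`. -/
def SHA_stmt : Prop := ∀ (M T : ℕ) (s v : ℤ) (f : ℤ → ℝ), 1 ≤ T → (∀ x, 0 ≤ f x ∧ f x ≤ 1) →
  |sm M T f (v + M * s) - sm M T f v| ≤ |(s : ℝ)| / T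

/-- **LOW** (short-medium; from SHA).  `p = (i, x)`, `p' = (j, y)`, `m = i - j`, `y = y % M + M (y / M)`: `b^m x - a^m (y % M) = (b^m x - a^m y) + M s`,
`s = a^m (y / M) ≤ a^m Y/M ≤ 2 κ T_m`. By SHA the value of `PQ` at `b^m x - a^m (y % M)` is at most `2κ` larger than `kr a b (PQ ...) p p'`. -/
def LOW_stmt : Prop := ∀ (a b L Y M : ℕ) (κ : ℝ), 1 ≤ M → 0 < κ → ∀ T : ℕ → ℕ,
  (∀ m ∈ Ico 1 L, 1 ≤ T m ∧ (a : ℝ) ^ m * Y ≤ 2 * κ * (M * T m)) → ∀ B : ℕ → ℤ → ℝ, (∀ m v, 0 ≤ B m v ∧ B m v ≤ 1) →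
  ∀ p ∈ VV L Y, ∀ p' ∈ VV L Y, p'.1 < p.1 →
    0 ≤ ff a b M κ T B p p' ∧ ff a b M κ T B p p' ≤ 1 ∧ ff a b M κ T B p p' ≤ kr a b (PQ M T B) p p'

/-- **AV1** (short-medium; pure counting).  If `ε < 2κ` the left side is negative, the right side not. For `T ≤ w < β N` the pairs `(x, t)`, `x < N`,
`t < T`, with `β x + t = w` are given by the `t < T` with `t ≡ w (mod β)`, at least `T/β - 1` of them (`x = (w - t)/β`). So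
`∑_(x, t) g (z + β x + t) ≥ (T/β - 1) ∑_(T ≤ w < βN) g (z + w) ≥ (T/β - 1) (ε β N - T - β)` (`g ≤ 1`; at most `T + |z|` of the `u ∈ [0, βN)` are not
of the form `z + w`). Divide by `T`: `≥ ε N - T/β - 1 - ε β N/T ≥ ε N - κ N - κ N - κ N`, since `T ≤ κ β N`, `β ≤ κ T` and so `1 ≤ κ² N`. -/
def AV1_stmt : Prop := ∀ (N T β : ℕ) (z : ℤ) (κ ε : ℝ), 1 ≤ β → 1 ≤ T → 0 < κ → κ ≤ 1 → 0 < ε → ε ≤ 1 → |z| ≤ β → (β : ℝ) ≤ κ * T →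
  (T : ℝ) ≤ κ * (β * N) → ∀ g : ℤ → ℝ, (∀ x, 0 ≤ g x ∧ g x ≤ 1) → ε * (β * N) ≤ ∑ u ∈ range (β * N), g u →
  (ε - 3 * κ) * N ≤ ∑ x ∈ range N, (∑ t ∈ range T, g (z + β * x + t)) / T

/-- **AVG** (medium; from AV1).  `m = i - j`, `y₀ = y % M`, `x = ρ + M x'`, `x' < N`; `b^m ρ - a^m y₀ = r + M z`, `0 ≤ r < M`, `|z| ≤ b^m` (as `a ≤ b`).
`PQ M T B m (b^m x - a^m y₀) = (1/T_m) ∑_t g (z + b^m x' + t)` with `g u = B m (r + M u)`, and `∑_(u < b^m N) g u` is the sum of the `B m v` with `v < b^m M N`,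
`v % M = r`. AV1 with `β = b^m`: the sum over `x'` of the averages is at least `(ε - 3κ) N`; `ff ≥ PQ - 2κ` costs `2κ N`. -/
def AVG_stmt : Prop := ∀ (a b L M N : ℕ) (κ ε : ℝ), 1 ≤ a → a ≤ b → 1 ≤ M → 0 < κ → κ ≤ 1 → 0 < ε → ε ≤ 1 → ∀ T : ℕ → ℕ,
  (∀ m ∈ Ico 1 L, 1 ≤ T m ∧ (b : ℝ) ^ m ≤ κ * T m ∧ (T m : ℝ) ≤ κ * ((b : ℝ) ^ m * N)) → ∀ B : ℕ → ℤ → ℝ, (∀ m v, 0 ≤ B m v ∧ B m v ≤ 1) →
  (∀ m ∈ Ico 1 L, ∀ r < M, ε * ((b : ℝ) ^ m * N) ≤ ∑ v ∈ range (b ^ m * (M * N)) with v % M = r, B m v) →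
  ∀ i < L, ∀ j < i, ∀ ρ < M, ∀ y < M * N,
    (ε - 5 * κ) * N ≤ ∑ x ∈ range (M * N) with x % M = ρ, ff a b M κ T B (i, x) (j, y)

/-- **TYP** (short-medium; pure).  `Y = M N`. The factor `c (i, x)` depends only on `i` and `x % M`, so for fixed `p' = (j, y)`, `i > j` and `ρ` the sum over
`x ≡ ρ` of `c (i, x) f (i, x) (j, y)` is at least `η N` times the value of `c` on this class, that is at least `η` times the sum of `c (i, x)`. So the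
right side is at least `η ∑_(p'.1 < p.1) c p c p' = (η/2) ((∑ c)² - ∑_i (∑_x c (i, x))²) ≥ (η/2) ((∑ c)² - L Y²)`. -/
def TYP_stmt : Prop := ∀ (L M N : ℕ) (η : ℝ), 1 ≤ M → 0 < η → η ≤ 1 → ∀ f : ℕ × ℕ → ℕ × ℕ → ℝ,
  (∀ i < L, ∀ j < i, ∀ ρ < M, ∀ y < M * N, η * N ≤ ∑ x ∈ range (M * N) with x % M = ρ, f (i, x) (j, y)) →
  ∀ c : ℕ × ℕ → ℝ, (∀ p, 0 ≤ c p ∧ c p ≤ 1) → (∀ j y, c (j, y) = c (j, y % M)) →
  η / 2 * ((∑ p ∈ VV L (M * N), c p) ^ 2 - L * ((M : ℝ) * N) ^ 2) ≤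
    ∑ p ∈ VV L (M * N), ∑ p' ∈ VV L (M * N) with p'.1 < p.1, c p * c p' * f p p'

/-- **K4L** (medium; from TYP).  `Y = M N`, `n = L Y`, `V = VV L Y`, `g > h` means `h.1 < g.1`; all factors are `≥ 0`, so `K4 V U ≥ ∑_(g₁ > g₂ > g₃ > g₄)` of the product of
the six `f`. (1) Fix `g₁ > g₂`; TYP for `c h = f g₁ h f g₂ h` (`h < g₂`, else `0`): the sum over `g₃ > g₄` is `≥ (η/2) ((∑_h c h)² - L Y²)`. (2) Multiply by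
`f g₁ g₂ ≤ 1`, sum over `g₂ < g₁`: by Cauchy-Schwarz (`∑ f g₁ g₂ ≤ n`) `∑_(g₂) f g₁ g₂ (∑_(h < g₂) f g₁ h f g₂ h)² ≥ (1/n) (∑_(h < g₂ < g₁) f g₁ g₂ f g₁ h f g₂ h)²`, and
by TYP for `c h = f g₁ h` (`h < g₁`, else `0`) the last sum is `≥ (η/2) (W² - L Y²)`, `W g₁ = ∑_(h < g₁) f g₁ h`. (3) Sum over `g₁`, Cauchy-Schwarz:
`∑ (W² - L Y²)_+² ≥ (1/n) ((∑ W)²/n - n L Y²)²` (if positive), and `∑ W ≥ (η/2) (n² - L Y²) ≥ η n²/4` by TYP for `c = 1` (`L ≥ 2`); `L Y² = n²/L`,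
`1/L ≤ η²/32`: `(∑ W)²/n - n³/L ≥ η² n³/32`. Together `K4 ≥ (η/2) ((1/n) (η²/4) (1/n) (η² n³/32)² - n⁴/L) ≥ (η⁷/2^13 - 1/L) n⁴`. -/
def K4L_stmt : Prop := ∀ (L M N : ℕ) (η : ℝ), 1 ≤ M → 1 ≤ N → 0 < η → η ≤ 1 → 32 ≤ η ^ 2 * L → ∀ U f : ℕ × ℕ → ℕ × ℕ → ℝ,
  (∀ p p', 0 ≤ U p p') → (∀ p ∈ VV L (M * N), ∀ p' ∈ VV L (M * N), p'.1 < p.1 → 0 ≤ f p p' ∧ f p p' ≤ 1 ∧ f p p' ≤ U p p') →
  (∀ p j y, f p (j, y) = f p (j, y % M)) →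
  (∀ i < L, ∀ j < i, ∀ ρ < M, ∀ y < M * N, η * N ≤ ∑ x ∈ range (M * N) with x % M = ρ, f (i, x) (j, y)) →
  (η ^ 7 / 2 ^ 13 - 1 / L) * ((L : ℝ) * (M * N)) ^ 4 ≤ K4 (VV L (M * N)) U

/-! ## Part C: the end of the proof -/

/-- **K4S** (medium; from PSY, ADV of SpecX; the proof is that of `OM.K4B`, Pool/Agent/helper78/OM/K4B.lean, with forms
`(a^i b^(L-i), 1 + 6ab (σ x))`). -/
def K4S_stmt : Prop := QPc → ∃ C δ : ℝ, 0 < C ∧ 0 < δ ∧ ∀ σ : ℤ, σ = 1 ∨ σ = -1 → ∀ a b L Y : ℕ, 1 ≤ a → 1 ≤ b → Nat.Coprime a b → a ≠ b →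
  1 ≤ L → 1 ≤ Y → K4 (VV L Y) (kr a b (BS σ a b)) ≤ C * ((L : ℝ) * Y) ^ 4 * ((L : ℝ) * Y) ^ (-δ)

/-- **NHR** (medium; from K4S, CU2, OM.CNT, LOW, AVG, K4L).  `ε ≤ 1` without loss. `κ = ε⁷/2^26` (so `5κ ≤ ε/2`), `L` so large that `32 ≤ (ε/2)² L` and
`1/L + 252/√L ≤ ε⁷/2^23`, `lam = κ²/(64 √L)`. `M = b^L MM1 a b L`, `Y = M N`, `T_m = ⌊a^m N/κ⌋` (natural floor). For large `N` (in terms of `a, b, L, κ`) the hypotheses of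
CU2, LOW and AVG hold (`T_m ≥ a^m N/(2κ) ≥ b^L/κ`; `T_m ≤ a^m N/κ ≤ κ b^m N` as `a^m ≤ κ² b^m`). Suppose that the claim is false for `N`:
then the hypothesis of AVG holds (`B = BS σ a b`), so K4L with `η = ε/2`, `U = kr a b (PQ M T B)`, `f = ff` gives
`K4 U ≥ (ε⁷/2^20 - 1/L) n⁴`, `n = L Y`. CNT (with `W = kr a b (PQ ...)`, `U = kr a b B`, `E = (2κ + 42/√L) n²`) and K4S:
`K4 (kr a b (PQ ...)) ≤ C n⁴ n^(-δ) + (12 κ + 252/√L) n⁴`. A contradiction for large `N`. -/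
def NHR_stmt : Prop := QPc → ∀ ε : ℝ, 0 < ε → ∃ (L : ℕ) (lam : ℝ), 0 < lam ∧ ∀ σ : ℤ, σ = 1 ∨ σ = -1 → ∀ a b : ℕ, 1 ≤ a → Nat.Coprime a b →
  (a : ℝ) ≤ lam * b → ∃ N₀ : ℕ, ∀ N : ℕ, N₀ ≤ N → ∃ m ∈ Ico 1 L, ∃ r < b ^ L * MM1 a b L,
    ∑ v ∈ range (b ^ m * (b ^ L * MM1 a b L * N)) with v % (b ^ L * MM1 a b L) = r, BS σ a b m v < ε * ((b : ℝ) ^ m * N)

/-- **TRN** (medium; from NHR).  `ε ≤ 1` without loss; NHR with `ε/4` gives `L`, `lam`. First `a < b`: take `r₀ ≥ 1` with `(a/b)^r ≤ lam` for `r ≥ r₀`; fix `r`, put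
`A = a^r`, `B = b^r` (coprime, different), `M = B^L MM1 A B L`, `q = 6 A B M`. `(σ = 1)` For large `X` take `N = X`: NHR gives `m`, `ρ`; with `D = B^m - A^m`,
`X' = D + 6 A B B^m M N` the map `v ↦ c = D + 6ABv` sends `v < B^m M N`, `v ≡ ρ (mod M)` injectively to `0 < c ≤ X'`, `c ≡ D + 6ABρ =: s (mod q)`, and `BS = 0` means that
`c` is true for `B^m = b^(rm)`, `A^m = a^(rm)`. So `q NC ≥ q (1 - ε/4) B^m N = (1 - ε/4) (X' - D) ≥ (1 - ε) X'` for large `X`; `X' ≤ C X` with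
`C = B^L + 6AB B^L M`. `(σ = -1)` `c = 6ABv - D`, `X' = 6 A B B^m M N`; the `v` with `c ≤ 0` are at most `D + 1 ≤ B^L` numbers. `a > b`: exchange `a, b` and replace `σ` by
`-σ` (`TrueCase.symm` of Pool/Agent/helper85/FC/Cor.lean). -/
def TRN_stmt : Prop := QPc → OMEGAP

/-- **CRP** (short; from OMEGAP; pigeonhole).  For every `X ≥ X₀` OMEGAP gives `(m, s)` out of finitely many pairs, so one pair `(m, s)` occurs for infinitely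
many `X` (`Set.infinite` pigeonhole, or `Filter.Frequently` of a finite disjunction), and `X' ≥ X`. -/
def CRP_stmt : Prop := OMEGAP → CORP

/-- **DNP** (short; from CORP; as `OM.OMD`, Pool/Agent/helper4/OM/OMD.lean).  For every `r` with `r₀ ≤ r ≤ N/L` there is a good `r m ≤ N`, `1 ≤ m < L`; every
number is `r m` for at most `L` pairs `(r, m)`. So there are at least `(N/L - r₀)/L ≥ N/(2 L²)` good exponents `≤ N` if `N ≥ 2 L (r₀ + 1)`; `δ = 1/(4 L²)`.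
(`L ≥ 2` because `Ico 1 L` is not empty.) -/
def DNP_stmt : Prop := CORP → DENP

end Pool.Agent.OP
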